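import Pool.Agent.helper14.SCO.Spec

/-!
Row sco:SEQ (MP_bfc607_gt).
-/

set_option autoImplicit false

namespace Pool.Agent.SCO

open Pool.Agent.Scheepers

theorem SEQ_reg_mono {a b : ℕ} (h : a ≤ b) {w : ℕ × ℕ} (hw : w ∈ Reg a) : w ∈ Reg b := by
  obtain ⟨e, he, hp⟩ := hw
  exact ⟨e, lt_of_lt_of_le he h, hp⟩

/-- the states of the recursion -/
structure SEQ_St (p : Cond) (J : ℕ) (t : Finset (ℕ × ℕ)) where
  m : ℕ
  y : ℕ → Bool
  w1 : ℕ × ℕ
  hm : J ≤ m
  hA : ∀ j, J ≤ j → j < m → y ∈ p.A j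
  hold : ∀ e, p.a J ≤ e → e < p.a m → pos e ∈ Reg (p.a J) → y e = dlt t e
  hnew : ∀ w', w' ∈ Reg (p.a m) → w' ∉ Reg (p.a J) → w' ≠ w1 → ∃ e, p.a J ≤ e ∧ e < p.a m ∧ pos e = w' ∧ y e = true
  hw1 : w1 ∉ t

theorem SEQ_step (h2 : SGM_stmt) (p : Cond) (J : ℕ) (hlg : ∀ j, J ≤ j → Lg (p.A j) (p.a j) (p.a (j + 1)))
    (t : Finset (ℕ × ℕ)) (ht : (t : Set (ℕ × ℕ)) ⊆ Reg (p.a J)) (l : ℕ → ℕ) (w : ℕ → ℕ × ℕ) (hl : StrictMono l)
    (hwl : ∀ i, w i ∈ Reg (p.a (l i)) ∧ w i ∉ Reg (p.a J)) (hw : ∀ M, ∃ i0, ∀ i, i0 ≤ i → w i ∉ Reg M)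
    (O : Set (ℕ → Bool)) (hO : IsOpen O) (hD : D ⊆ O) (s : SEQ_St p J t) (N : ℕ) :
    ∃ (s' : SEQ_St p J t) (i : ℕ), N ≤ i ∧ s.m < s'.m ∧ (∀ e, e < p.a s.m → s'.y e = s.y e) ∧ s'.m = l i ∧ s'.w1 = w i ∧
      Pat (p.a J) (p.a (l i)) t (w i) s'.y ∧
      ∀ v : ℕ → Bool, (∀ e, p.a J ≤ e → e < p.a s'.m → v e = s'.y e) → v ∈ O := by
  obtain ⟨m', hm', ⟨e1, he1, he1', hpe1⟩, hS⟩ := h2 p J hlg t ht O hO hD s.m s.y s.w1 s.hm
  obtain ⟨i0, hi0⟩ := hw (p.a m')
  set i := max (max N i0) (m' + 1) with hi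
  have hiN : N ≤ i := le_trans (le_max_left _ _) (le_max_left _ _)
  have hii0 : i0 ≤ i := le_trans (le_max_right _ _) (le_max_left _ _)
  have him' : m' < l i := lt_of_lt_of_le (Nat.lt_succ_self m') (le_trans (le_max_right _ _) (hl.id_le i))
  have hwi := hi0 i hii0
  obtain ⟨y', hy1, hy2, hP, hyA, hyO⟩ := hS (l i) (w i) him' (hwl i).1 hwi
  have hJm : p.a J ≤ p.a s.m := p.mono.monotone s.hm
  have hmm' : p.a s.m ≤ p.a m' := p.mono.monotone hm'.le
  have hml : p.a m' ≤ p.a (l i) := p.mono.monotone him'.le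
  have hold' : ∀ e, p.a J ≤ e → e < p.a (l i) → pos e ∈ Reg (p.a J) → y' e = dlt t e := by
    intro e he he' hpe
    rcases lt_or_ge e (p.a s.m) with h | h
    · rw [hy1 e h]; exact s.hold e he h hpe
    · rcases lt_or_ge e (p.a m') with h' | h'
      · exact hy2 e h h'
      · exact hP.1 e h' he' (SEQ_reg_mono (hJm.trans hmm') hpe)
  have hnew' : ∀ w', w' ∈ Reg (p.a (l i)) → w' ∉ Reg (p.a J) → w' ≠ w i →
      ∃ e, p.a J ≤ e ∧ e < p.a (l i) ∧ pos e = w' ∧ y' e = true := by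
    intro w' hw1 hw2 hw3
    by_cases hm1 : w' ∈ Reg (p.a m')
    · by_cases hm2 : w' ∈ Reg (p.a s.m)
      · by_cases hw4 : w' = s.w1
        · refine ⟨e1, hJm.trans he1, lt_of_lt_of_le he1' hml, by rw [hpe1, hw4], ?_⟩
          rw [hy2 e1 he1 he1']
          simp only [dlt, decide_eq_true_eq, hpe1]
          exact s.hw1
        · obtain ⟨e, h3, h4, h5, h6⟩ := s.hnew w' hm2 hw2 hw4
          exact ⟨e, h3, lt_of_lt_of_le h4 (hmm'.trans hml), h5, by rw [hy1 e h4, h6]⟩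
      · obtain ⟨e0, h3, h4⟩ := hm1
        have h5 : p.a s.m ≤ e0 := by
          by_contra hc
          exact hm2 ⟨e0, not_le.1 hc, h4⟩
        refine ⟨e0, hJm.trans h5, lt_of_lt_of_le h3 hml, h4, ?_⟩
        rw [hy2 e0 h5 h3]
        simp only [dlt, decide_eq_true_eq, h4]
        exact fun hc => hw2 (ht hc)
    · obtain ⟨e, h3, h4, h5, h6⟩ := hP.2.2 w' hw1 hm1 hw3
      exact ⟨e, (hJm.trans hmm').trans h3, h4, h5, h6⟩
  refine ⟨⟨l i, y', w i, (s.hm.trans hm'.le).trans him'.le, ?_, hold', hnew', fun hc => (hwl i).2 (ht hc)⟩, i, hiN,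
    hm'.trans him', hy1, rfl, rfl, ⟨hold', ?_, fun w' h3 h4 h5 => hnew' w' h3 h4 h5⟩, hyO⟩
  · intro j hj hj'
    rcases lt_or_ge j s.m with h | h
    · refine p.loc j s.y y' (fun e he he' => (hy1 e (lt_of_lt_of_le he' (p.mono.monotone h))).symm) (s.hA j hj h)
    · exact hyA j h hj'
  · intro e he he' hpe
    have h3 : p.a m' ≤ e := by
      by_contra hc
      exact hwi ⟨e, not_le.1 hc, hpe⟩
    exact hP.2.1 e h3 he' hpe

theorem SEQ_pat {l r : ℕ} {t : Finset (ℕ × ℕ)} {w : ℕ × ℕ} {u v : ℕ → Bool} (h : ∀ e, e < r → v e = u e)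
    (hu : Pat l r t w u) : Pat l r t w v := by
  refine ⟨fun e he he' hp => by rw [h e he', hu.1 e he he' hp], fun e he he' hp => by rw [h e he', hu.2.1 e he he' hp],
    fun w' h1 h2 h3 => ?_⟩
  obtain ⟨e, h4, h5, h6, h7⟩ := hu.2.2 w' h1 h2 h3
  exact ⟨e, h4, h5, h6, by rw [h e h5, h7]⟩

theorem SEQ (h1 : RFI_stmt) (h2 : SGM_stmt) : SEQ_stmt := by
  intro p J hlg V hV t ht l w hl hwl hw
  have _ := h1
  -- the initial state
  obtain ⟨w0, hw0⟩ := Infinite.exists_notMem_finset t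
  let s0 : SEQ_St p J t := ⟨J, fun _ => true, w0, le_rfl, fun j hj hj' => absurd hj' (not_lt.2 hj),
    fun e he he' => absurd he' (not_lt.2 he), fun w' h3 h4 => absurd h3 h4, hw0⟩
  have hst := fun (r : ℕ) (s : SEQ_St p J t) (N : ℕ) =>
    SEQ_step h2 p J hlg t ht l w hl hwl hw (V r) (hV r).1 (hV r).2 s N
  choose nx ix hN hmlt hagree hml hw1 hpat hopen using hst
  let st : ℕ → SEQ_St p J t × ℕ := fun r => Nat.rec (s0, 0) (fun r s => (nx r s.1 s.2, ix r s.1 s.2 + 1)) r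
  have st_succ : ∀ r, st (r + 1) = (nx r (st r).1 (st r).2, ix r (st r).1 (st r).2 + 1) := fun r => rfl
  have hm_succ : ∀ r, (st r).1.m < (st (r + 1)).1.m := fun r => hmlt r _ _
  have hm_mono : StrictMono (fun r => (st r).1.m) := strictMono_nat_of_lt_succ hm_succ
  have hr_le : ∀ r, r ≤ (st r).1.m := fun r => hm_mono.id_le r
  have hag_succ : ∀ r e, e < p.a (st r).1.m → (st (r + 1)).1.y e = (st r).1.y e := fun r e he => hagree r _ _ e he
  have hag : ∀ r k e, e < p.a (st r).1.m → (st (r + k)).1.y e = (st r).1.y e := by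
    intro r k
    induction k with
    | zero => intro e _; rfl
    | succ k ih =>
      intro e he
      have h3 : e < p.a (st (r + k)).1.m :=
        lt_of_lt_of_le he (p.mono.monotone (hm_mono.monotone (Nat.le_add_right r k)))
      exact (hag_succ (r + k) e h3).trans (ih e he)
  let z : ℕ → Bool := fun e => (st (e + 1)).1.y e
  have hz : ∀ r e, e < p.a (st r).1.m → z e = (st r).1.y e := by
    intro r e he
    rcases le_total r (e + 1) with h | h
    · obtain ⟨k, hk⟩ := Nat.exists_eq_add_of_le h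
      show (st (e + 1)).1.y e = _
      rw [hk]
      exact hag r k e he
    · obtain ⟨k, hk⟩ := Nat.exists_eq_add_of_le h
      have h3 : e < p.a (st (e + 1)).1.m := by
        have h4 := hr_le (e + 1)
        have h5 := p.mono.id_le (st (e + 1)).1.m
        have h5' : (st (e + 1)).1.m ≤ p.a (st (e + 1)).1.m := h5
        omega
      rw [hk]
      exact (hag (e + 1) k e h3).symm
  have hi_ge : ∀ r, r ≤ (st r).2 := by
    intro r
    induction r with
    | zero => exact Nat.zero_le _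
    | succ r ih =>
      rw [st_succ]
      have := hN r (st r).1 (st r).2
      show r + 1 ≤ ix r (st r).1 (st r).2 + 1
      omega
  refine ⟨z, ?_, ?_, ?_⟩
  · intro j hj
    have h3 : j < (st (j + 1)).1.m := hr_le (j + 1)
    refine p.loc j (st (j + 1)).1.y z (fun e he he' => ?_) ((st (j + 1)).1.hA j hj h3)
    exact (hz (j + 1) e (lt_of_lt_of_le he' (p.mono.monotone h3))).symm
  · refine Set.infinite_of_forall_exists_gt fun N => ?_
    refine ⟨ix (N + 1) (st (N + 1)).1 (st (N + 1)).2, ?_, ?_⟩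
    · refine SEQ_pat (u := (st (N + 1 + 1)).1.y) (fun e he => ?_) (hpat (N + 1) (st (N + 1)).1 (st (N + 1)).2)
      refine hz (N + 1 + 1) e ?_
      rw [← hml (N + 1) (st (N + 1)).1 (st (N + 1)).2] at he
      exact he
    · have h3 := hN (N + 1) (st (N + 1)).1 (st (N + 1)).2
      have h4 := hi_ge (N + 1)
      omega
  · intro s
    have hcat : ∀ e, p.a J ≤ e → cat (p.a J) s z e = z e := fun e he => by
      simp only [cat, if_neg (not_lt.2 he)]
    have hvan : ∀ w', w' ∉ t → ∃ e, pos e = w' ∧ cat (p.a J) s z e = true := by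
      intro w' hw'
      by_cases hJ : w' ∈ Reg (p.a J)
      · obtain ⟨e, he, hpe⟩ := exists_pos_ge w' (p.a J)
        refine ⟨e, hpe, ?_⟩
        have h3 : e < p.a (st (e + 1)).1.m := by
          have h4 := hr_le (e + 1)
          have h5' : (st (e + 1)).1.m ≤ p.a (st (e + 1)).1.m := p.mono.id_le (st (e + 1)).1.m
          omega
        rw [hcat e he, hz (e + 1) e h3, (st (e + 1)).1.hold e he h3 (by rw [hpe]; exact hJ)]
        simp only [dlt, decide_eq_true_eq, hpe]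
        exact hw'
      · obtain ⟨e0, -, hpe0⟩ := exists_pos_ge w' 0
        obtain ⟨i0, hi0⟩ := hw (e0 + 1)
        set r := max i0 (e0 + 1) with hr
        have hr1 : i0 ≤ r := le_max_left _ _
        have hr2 : e0 + 1 ≤ r := le_max_right _ _
        have h3 : w' ∈ Reg (e0 + 1) := ⟨e0, Nat.lt_succ_self e0, hpe0⟩
        have h4 : w' ∈ Reg (p.a (st (r + 1)).1.m) := by
          refine SEQ_reg_mono ?_ h3
          have h5' : (st (r + 1)).1.m ≤ p.a (st (r + 1)).1.m := p.mono.id_le (st (r + 1)).1.m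
          have h6 := hr_le (r + 1)
          omega
        have h5 : w' ≠ (st (r + 1)).1.w1 := by
          have h6 : (st (r + 1)).1.w1 = w (ix r (st r).1 (st r).2) := hw1 r _ _
          rw [h6]
          intro hc
          have h7 := hN r (st r).1 (st r).2
          have h8 := hi_ge r
          exact hi0 (ix r (st r).1 (st r).2) (by omega) (by rw [← hc]; exact h3)
        obtain ⟨e, h6, h7, h8, h9⟩ := (st (r + 1)).1.hnew w' h4 hJ h5
        exact ⟨e, h8, by rw [hcat e h6, hz (r + 1) e h7, h9]⟩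
    refine ⟨?_, ?_⟩
    · intro n
      have hfin : (((t : Set (ℕ × ℕ))).image Prod.snd).Finite := t.finite_toSet.image _
      refine hfin.subset fun k hk => ?_
      by_contra hc
      have hnt : (n, k) ∉ t := fun h => hc ⟨(n, k), h, rfl⟩
      obtain ⟨e, he1, he2⟩ := hvan (n, k) hnt
      have h3 : cat (p.a J) s z e = false := hk e he1
      rw [he2] at h3
      exact Bool.noConfusion h3
    · intro r
      refine hopen r (st r).1 (st r).2 _ fun e he he' => ?_
      rw [hcat e he]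
      exact hz (r + 1) e he'

end Pool.Agent.SCO
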